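import Pool.Agent.Helper55.SCH.Goals

set_option autoImplicit false

namespace Pool.Agent.Helper64.SCH

open Finset Pool.Agent.Helper55.SCH

lemma S_succ (s : ℕ → ℝ) (k : ℕ) : S s (k + 1) = S s k + s (k + 1) := by
  unfold S
  exact Finset.sum_Icc_succ_top (by omega) _

lemma S_zero (s : ℕ → ℝ) : S s 0 = 0 := by
  unfold S
  simp

lemma S_abs (s : ℕ → ℝ) (h : ∀ x, |s x| ≤ 1) (k : ℕ) : |S s k| ≤ k := by
  induction k with
  | zero => rw [S_zero]; simp
  | succ k ih =>
    rw [S_succ]
    have := abs_add_le (S s k) (s (k + 1))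
    have := h (k + 1)
    push_cast
    linarith

/-- the time constraint for one of the two halves -/
lemma time1 (hH : G_HUB) (hT : G_TIME) (c : ℕ) (lam : ℝ) (s a b : ℕ → ℝ) (hl : 1 ≤ lam)
    (hs : ∀ x, |s x| ≤ 1) (ha1 : ∀ x, |a x| ≤ 1) (hb1 : ∀ x, |b x| ≤ 1)
    (ha : ∀ x ∈ Icc 1 c, a x = - Phi lam (w2 c s a b x)) (hc : 1 ≤ c) :
    max (-(S s c + S a c)) 0 + max (-(2 * S s c + S a c + S b c)) 0 - 2 * lam - 2 ≤ c + S a c ∨
      S a c = c := by
  have hl0 : 0 < lam := by linarith
  obtain ⟨-, -, -, -, -, -, h7, -⟩ := hH lam hl0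
  obtain ⟨k, rfl⟩ : ∃ k, c = k + 1 := ⟨c - 1, by omega⟩
  have hy : ∑ x ∈ Icc 1 (k + 1), (1 + a x) / 2 = (((k + 1 : ℕ) : ℝ) + S a (k + 1)) / 2 := by
    rw [← Finset.sum_div, Finset.sum_add_distrib]
    simp [S]
  have h := hT 1 (k + 1) 2 lam (w2 (k + 1) s a b) (fun x => (1 + a x) / 2) hc (by norm_num)
    hl0.le ?_ ?_
  · rcases h with h | h
    · left
      have e1 : w2 (k + 1) s a b 1 = S s (k + 1) + S a (k + 1) + b (k + 1) := by
        unfold w2
        have : k + 1 - 1 = k := by omega
        rw [this, S_succ b k]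
        simp [S_zero]
        ring
      have e2 : w2 (k + 1) s a b (k + 1) =
          2 * S s (k + 1) + S a (k + 1) + S b (k + 1) - s (k + 1) := by
        unfold w2
        have : k + 1 - 1 = k := by omega
        rw [this, S_succ s k]
        simp [S_zero]
        ring
      rw [e1, e2, hy] at h
      have hb := abs_le.mp (hb1 (k + 1))
      have hs' := abs_le.mp (hs (k + 1))
      have m1 : max (-(S s (k + 1) + S a (k + 1))) 0 ≤
          max (-(S s (k + 1) + S a (k + 1) + b (k + 1))) 0 + 1 := by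
        apply max_le
        · have := le_max_left (-(S s (k + 1) + S a (k + 1) + b (k + 1))) 0
          linarith
        · have := le_max_right (-(S s (k + 1) + S a (k + 1) + b (k + 1))) 0
          linarith
      have m2 : max (-(2 * S s (k + 1) + S a (k + 1) + S b (k + 1))) 0 ≤
          max (-(2 * S s (k + 1) + S a (k + 1) + S b (k + 1) - s (k + 1))) 0 + 1 := by
        apply max_le
        · have := le_max_left (-(2 * S s (k + 1) + S a (k + 1) + S b (k + 1) - s (k + 1))) 0
          linarith
        · have := le_max_right (-(2 * S s (k + 1) + S a (k + 1) + S b (k + 1) - s (k + 1))) 0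
          linarith
      linarith
    · right
      have : ∀ x ∈ Icc 1 (k + 1), a x = 1 := by
        intro x hx
        have := h x hx
        linarith
      unfold S
      rw [Finset.sum_congr rfl this]
      simp
  · intro x hx1 hx2
    obtain ⟨j, hj⟩ : ∃ j, k + 1 - x = j + 1 := ⟨k - x, by omega⟩
    have e : w2 (k + 1) s a b (x + 1) - w2 (k + 1) s a b x = s x + b (k + 1 - x) := by
      unfold w2
      have h1 : x + 1 - 1 = (x - 1) + 1 := by omega
      have h2 : k + 1 - (x + 1) = j := by omega
      rw [h1, h2, hj, S_succ s (x - 1), S_succ b j]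
      have h3 : x - 1 + 1 = x := by omega
      rw [h3]
      ring
    rw [e]
    have := abs_add_le (s x) (b (k + 1 - x))
    have := hs x
    have := hb1 (k + 1 - x)
    linarith
  · intro x hx
    have := abs_le.mp (ha1 x)
    refine ⟨by linarith, by linarith, ?_⟩
    intro hle
    have h1 := h7 _ hle
    have h2 := ha x hx
    rw [h1] at h2
    linarith

theorem goalCL2 : G_CL2 := by
  intro hH hT c lam s a b hC hc
  have hl := hC.lam1
  have hl0 : 0 < lam := by linarith
  have hP := (hH lam hl0).1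
  have hs : ∀ x, |s x| ≤ 1 := by
    intro x
    by_cases hx : x ∈ Icc 1 c
    · rw [hC.hs x hx, abs_neg]; exact hP _
    · rw [hC.s0 x hx]; simp
  have ha : ∀ x, |a x| ≤ 1 := by
    intro x
    by_cases hx : x ∈ Icc 1 c
    · rw [hC.ha x hx, abs_neg]; exact hP _
    · rw [hC.a0 x hx]; simp
  have hb : ∀ x, |b x| ≤ 1 := by
    intro x
    by_cases hx : x ∈ Icc 1 c
    · rw [hC.hb x hx, abs_neg]; exact hP _
    · rw [hC.b0 x hx]; simp
  have t1 := time1 hH hT c lam s a b hl hs ha hb hC.ha hc
  have t2 := time1 hH hT c lam s b a hl hs hb ha hC.hb hc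
  have q1 := abs_le.mp (S_abs s hs c)
  have q2 := abs_le.mp (S_abs a ha c)
  have q3 := abs_le.mp (S_abs b hb c)
  have hn := hC.neg
  set mu := S s c
  set al := S a c
  set be := S b c
  have eA : |mu + al + be| = -(mu + al + be) := abs_of_nonpos hn
  rw [eA]
  have l1 := le_max_left (-(mu + al)) 0
  have l2 := le_max_right (-(mu + al)) 0
  have l3 := le_max_left (-(2 * mu + al + be)) 0
  have l4 := le_max_right (-(2 * mu + al + be)) 0
  have l5 := le_max_left (-(mu + be)) 0
  have l6 := le_max_right (-(mu + be)) 0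
  have l7 := le_max_left (-(2 * mu + be + al)) 0
  have l8 := le_max_right (-(2 * mu + be + al)) 0
  generalize max (-(mu + al)) 0 = M1 at *
  generalize max (-(2 * mu + al + be)) 0 = M2 at *
  generalize max (-(mu + be)) 0 = M3 at *
  generalize max (-(2 * mu + be + al)) 0 = M4 at *
  rcases le_total 0 (mu + al) with k1 | k1 <;> rcases le_total 0 (mu + be) with k2 | k2 <;>
    rcases le_total 0 (2 * mu + al + be) with k3 | k3 <;>
    simp only [abs_of_nonneg, abs_of_nonpos, k1, k2, k3] <;>
    rcases t1 with t1 | t1 <;> rcases t2 with t2 | t2 <;> linarith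

end Pool.Agent.Helper64.SCH
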